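import Pool.Agent.Y248.FE.Stm
import Pool.Agent.Y941.FD.Rt

/-!
# Restricted estimates with a general exponent: the choice of the splitting scale
-/

set_option autoImplicit false

namespace Pool.Agent.Y356.FE

open MeasureTheory Set Metric Complex Filter
open scoped ENNReal RealInnerProductSpace Topology FourierTransform
open Pool.Agent.H789R2.FR (E sg T)
open Pool.Agent.H438R2.RZ (Bump)
open Pool.Agent.Y248.BA (mu Kr Tp)
open Pool.Agent.Y248.FB Pool.Agent.Y248.FC Pool.Agent.Y248.FD Pool.Agent.Y248.FE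
open Pool.Agent.Y941.FD (exp_log_neg exp_log' three_pow lint_le comb1 comb2 comb3 target)

/-! ### Real numbers -/

/-- the choice of the scale, near the equator, in logarithmic coordinates -/
theorem lg_pm {M β s α L U t Z : ℝ} (hM : 2 ≤ M) (hβ0 : 0 ≤ β) (hβ : β ≤ 1) (hs0 : 0 ≤ s)
    (hs : 2 * (M + 1) * s ≤ 1) (ht : 0 ≤ t) (htL : t ≤ 2 * L) (hαL : 2 * L ≤ α)
    (hZ1 : -(1 - β) * (α - L) - 2 * s * ((M / 2 + β) * α + (1 - β) * L) ≤ Z)
    (hZ2 : -α + (1 + β) * L - 2 * s * (M + 1 + β) * L ≤ Z) :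
    (-L - α + 2 * U ≤ Z + (1 + 2 * s) * U + (M + 1) * t) ∨
    (-(1 - β) * (α - L) + U ≤ Z + (1 + 2 * s) * U + (M + 1) * t) ∨
    ∃ R : ℝ, t ≤ R ∧ R ≤ α ∧
      ((-α + (-M / 2 * R + (-L + R / 2)) + 2 * U ≤ Z + (1 + 2 * s) * U + (M + 1) * t ∧
        -α + (R - (1 - β) * L) + U ≤ Z + (1 + 2 * s) * U + (M + 1) * t) ∨
       (-α + (-M / 2 * R) + 2 * U ≤ Z + (1 + 2 * s) * U + (M + 1) * t ∧
        -α + (R - (1 - β) * (R - L)) + U ≤ Z + (1 + 2 * s) * U + (M + 1) * t)) := by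
  have hL : 0 ≤ L := by linarith
  have hs1 : 2 * s ≤ 1 := by nlinarith
  have hsN : (M + 1) * s ≤ 1 := by linarith
  have hMt : 0 ≤ (M + 1) * t := mul_nonneg (by linarith) ht
  rcases le_total U ((M + 1) / 2 * t + β * L) with h1 | h1
  · left
    have p1 : 0 ≤ (1 - 2 * s) * ((M + 1) / 2 * t + β * L - U) :=
      mul_nonneg (by linarith) (by linarith)
    have p2 : 0 ≤ L * (1 - (M + 1) * s) := mul_nonneg hL (by linarith)
    have p3 : 0 ≤ s * ((M + 1) * t) := mul_nonneg hs0 hMt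
    linarith
  right
  rcases le_total U ((M + 1 + β) * L) with h2 | h2
  · right
    obtain ⟨R, hR⟩ : ∃ R : ℝ, U = (M + 1) / 2 * R + β * L := by
      refine ⟨2 * (U - β * L) / (M + 1), ?_⟩
      field_simp
      ring
    subst hR
    have hM1 : (0 : ℝ) < (M + 1) / 2 := by linarith
    have hR1 : t ≤ R := by
      refine le_of_mul_le_mul_left ?_ hM1
      linarith
    have hR2 : R ≤ 2 * L := by
      refine le_of_mul_le_mul_left ?_ hM1
      linarith
    have p1 : 0 ≤ (1 - (M + 1) * s) * (2 * L - R) := mul_nonneg (by linarith) (by linarith)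
    refine ⟨R, hR1, by linarith, Or.inl ⟨?_, ?_⟩⟩
    · linarith
    · linarith
  · have ha : 0 < M / 2 + β := by linarith
    obtain ⟨R, hR⟩ : ∃ R : ℝ, U = (M / 2 + β) * R + (1 - β) * L := by
      refine ⟨(U - (1 - β) * L) / (M / 2 + β), ?_⟩
      rw [mul_div_cancel₀ _ ha.ne']
      ring
    subst hR
    have hR1 : 2 * L ≤ R := by
      refine le_of_mul_le_mul_left ?_ ha
      linarith
    rcases le_total R α with h3 | h3
    · right
      have key : (β - s * (M + 2 * β)) * R + (1 - β) * (1 - 2 * s) * L - α ≤ Z := by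
        rcases le_total 0 (β - s * (M + 2 * β)) with h4 | h4
        · have p1 : 0 ≤ (β - s * (M + 2 * β)) * (α - R) := mul_nonneg h4 (by linarith)
          linarith
        · have p1 : 0 ≤ -(β - s * (M + 2 * β)) * (R - 2 * L) :=
            mul_nonneg (by linarith) (by linarith)
          linarith
      refine ⟨R, by linarith, h3, Or.inr ⟨?_, ?_⟩⟩
      · linarith
      · linarith
    · left
      have p1 : 0 ≤ s * ((M / 2 + β) * (R - α)) :=
        mul_nonneg hs0 (mul_nonneg ha.le (by linarith))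
      linarith

/-- the choice of the scale, away from the equator -/
theorem lg_hi {M β s α U t Z : ℝ} (hM : 2 ≤ M) (hβ0 : 0 ≤ β) (hβ : β ≤ 1) (hs0 : 0 ≤ s)
    (hs : 2 * (M + 1) * s ≤ 1) (ht : 0 ≤ t) (hα : 0 ≤ α)
    (hZ1 : -(1 - β) * α - 2 * s * ((M / 2 + β) * α) ≤ Z) (hZ2 : -α ≤ Z) :
    (-α + 2 * U ≤ Z + (1 + 2 * s) * U + (M + 1) * t) ∨
    (-(1 - β) * α + U ≤ Z + (1 + 2 * s) * U + (M + 1) * t) ∨
    ∃ R : ℝ, t ≤ R ∧ R ≤ α ∧
      (-α + (-M / 2 * R) + 2 * U ≤ Z + (1 + 2 * s) * U + (M + 1) * t ∧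
        -α + β * R + U ≤ Z + (1 + 2 * s) * U + (M + 1) * t) := by
  have hs1 : 2 * s ≤ 1 := by nlinarith
  have hMt : 0 ≤ (M + 1) * t := mul_nonneg (by linarith) ht
  have ha : 0 < M / 2 + β := by linarith
  obtain ⟨R, hR⟩ : ∃ R : ℝ, U = (M / 2 + β) * R := by
    refine ⟨U / (M / 2 + β), ?_⟩
    rw [mul_div_cancel₀ _ ha.ne']
  subst hR
  rcases le_total R t with h1 | h1
  · left
    have p1 : 0 ≤ (1 - 2 * s) * ((M / 2 + β) * (t - R)) :=
      mul_nonneg (by linarith) (mul_nonneg ha.le (by linarith))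
    have p2 : 0 ≤ s * ((M / 2 + β) * t) := mul_nonneg hs0 (mul_nonneg ha.le ht)
    have p3 : 0 ≤ (M / 2 + 1 - β) * t := mul_nonneg (by linarith) ht
    linarith
  · right
    rcases le_total R α with h3 | h3
    · right
      have key : (β - s * (M + 2 * β)) * R - α ≤ Z := by
        rcases le_total 0 (β - s * (M + 2 * β)) with h4 | h4
        · have p1 : 0 ≤ (β - s * (M + 2 * β)) * (α - R) := mul_nonneg h4 (by linarith)
          linarith
        · have p1 : 0 ≤ -(β - s * (M + 2 * β)) * R :=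
            mul_nonneg (by linarith) (by linarith)
          linarith
      exact ⟨R, h1, h3, by linarith, by linarith⟩
    · left
      have p1 : 0 ≤ s * ((M / 2 + β) * (R - α)) :=
        mul_nonneg hs0 (mul_nonneg ha.le (by linarith))
      linarith

theorem aa_exp (m : ℕ) (β s α L : ℝ) :
    aa m β s (Real.exp α) (Real.exp (-L)) =
      Real.exp (max (-(1 - β) * (α - L) - 2 * s * (((m : ℝ) / 2 + β) * α + (1 - β) * L))
        (-α + (1 + β) * L - 2 * s * ((m : ℝ) + 1 + β) * L)) := by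
  unfold aa
  rw [Real.exp_monotone.map_max]
  congr 1
  · rw [← Real.exp_add, ← Real.exp_mul, ← Real.exp_mul, ← Real.exp_mul, ← Real.exp_add,
      ← Real.exp_mul, ← Real.exp_add]
    congr 1
    ring
  · rw [← Real.exp_neg, ← Real.exp_mul, ← Real.exp_add]
    congr 1
    ring

theorem aa_nonneg (m : ℕ) (β s A l : ℝ) (hA : 0 < A) (hl : 0 < l) : 0 ≤ aa m β s A l := by
  unfold aa
  exact (by positivity : 0 ≤ (A * l) ^ (-(1 - β)) *
    (A ^ ((m : ℝ) / 2 + β) * l ^ (-(1 - β))) ^ (-(2 * s))).trans (le_max_left _ _)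

theorem hT (m : ℕ) (β s α L U : ℝ) :
    (3 : ℝ) ^ (m + 1) * (aa m β s (Real.exp α) (Real.exp (-L)) * Real.exp U ^ (1 + 2 * s)) =
    Real.exp (max (-(1 - β) * (α - L) - 2 * s * (((m : ℝ) / 2 + β) * α + (1 - β) * L))
        (-α + (1 + β) * L - 2 * s * ((m : ℝ) + 1 + β) * L) + (1 + 2 * s) * U +
      ((m : ℝ) + 1) * Real.log 3) := by
  rw [three_pow, aa_exp, ← Real.exp_mul, ← Real.exp_add, ← Real.exp_add]
  congr 1
  ring

theorem real_pm {m : ℕ} (hm : 2 ≤ m) {β s A l u : ℝ} (hβ0 : 0 ≤ β) (hβ : β ≤ 1) (hs0 : 0 ≤ s)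
    (hs : 2 * ((m : ℝ) + 1) * s ≤ 1)
    (hA : 4 ≤ A) (hl0 : 0 < l) (hl : l ≤ 1 / 8) (hAl : 1 ≤ A * l ^ 2) (hu : 0 < u) :
    (l / A * u ^ (2 : ℝ) ≤ 3 ^ (m + 1) * (aa m β s A l * u ^ (1 + 2 * s))) ∨
    ((A * l) ^ (-(1 - β)) * u ≤ 3 ^ (m + 1) * (aa m β s A l * u ^ (1 + 2 * s))) ∨
    ∃ r : ℝ, 3 ≤ r ∧ r ≤ A ∧
      1 / A * (r ^ (-(m : ℝ) / 2) * min 1 (l * r ^ (1 / 2 : ℝ))) * u ^ (2 : ℝ) ≤ 3 ^ (m + 1) *
        (aa m β s A l * u ^ (1 + 2 * s)) ∧
      1 / A * (r * (min (1 / (r * l)) l) ^ (1 - β)) * u ≤ 3 ^ (m + 1) *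
        (aa m β s A l * u ^ (1 + 2 * s)) := by
  have hm2 : (2 : ℝ) ≤ m := by exact_mod_cast hm
  obtain ⟨L, rfl⟩ := exp_log_neg hl0
  obtain ⟨α, rfl⟩ := exp_log' (show 0 < A by linarith)
  obtain ⟨U, rfl⟩ := exp_log' hu
  have h3 : Real.exp (Real.log 3) = 3 := Real.exp_log (by norm_num)
  have ht0 : 0 ≤ Real.log 3 := Real.log_nonneg (by norm_num)
  have htL : Real.log 3 ≤ L := by
    rw [← Real.exp_le_exp, h3]
    rw [Real.exp_neg] at hl
    have h4 : 8 ≤ Real.exp L := by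
      have := (inv_le_comm₀ (Real.exp_pos L) (by norm_num : (0 : ℝ) < 1 / 8)).1 hl
      norm_num at this
      exact this
    linarith
  have hαL : 2 * L ≤ α := by
    have h4 : (1 : ℝ) ≤ Real.exp (α - 2 * L) := by
      refine hAl.trans (le_of_eq ?_)
      rw [← Real.exp_nat_mul, ← Real.exp_add]
      congr 1
      push_cast
      ring
    rw [← Real.exp_zero, Real.exp_le_exp] at h4
    linarith
  rw [hT]
  have e1 : Real.exp (-L) / Real.exp α * Real.exp U ^ (2 : ℝ) = Real.exp (-L - α + 2 * U) := by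
    rw [← Real.exp_mul, ← Real.exp_sub, ← Real.exp_add]
    congr 1
    ring
  have e2 : (Real.exp α * Real.exp (-L)) ^ (-(1 - β)) * Real.exp U =
      Real.exp (-(1 - β) * (α - L) + U) := by
    rw [← Real.exp_add, ← Real.exp_mul, ← Real.exp_add]
    congr 1
    ring
  rw [e1, e2]
  rcases lg_pm (M := (m : ℝ)) (β := β) (s := s) (α := α) (L := L) (U := U)
    (t := Real.log 3) hm2 hβ0 hβ hs0 hs ht0 (by linarith) hαL (le_max_left _ _) (le_max_right _ _)
    with h | h | ⟨R, hR1, hR2, h⟩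
  · exact Or.inl (Real.exp_le_exp.2 h)
  · exact Or.inr (Or.inl (Real.exp_le_exp.2 h))
  · refine Or.inr (Or.inr ⟨Real.exp R, ?_, Real.exp_le_exp.2 hR2, ?_⟩)
    · rw [← h3]
      exact Real.exp_le_exp.2 hR1
    · have hmin0 : 0 ≤ min (1 / (Real.exp R * Real.exp (-L))) (Real.exp (-L)) :=
        le_min (by positivity) (by positivity)
      rcases h with ⟨h4, h5⟩ | ⟨h4, h5⟩
      · constructor
        · calc 1 / Real.exp α * (Real.exp R ^ (-(m : ℝ) / 2) *
                min 1 (Real.exp (-L) * Real.exp R ^ (1 / 2 : ℝ))) * Real.exp U ^ (2 : ℝ)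
              ≤ 1 / Real.exp α * (Real.exp R ^ (-(m : ℝ) / 2) *
                (Real.exp (-L) * Real.exp R ^ (1 / 2 : ℝ))) * Real.exp U ^ (2 : ℝ) := by
                gcongr
                exact min_le_right _ _
            _ = Real.exp (-α + (-(m : ℝ) / 2 * R + (-L + R / 2)) + 2 * U) := by
                rw [one_div, ← Real.exp_neg, ← Real.exp_mul, ← Real.exp_mul, ← Real.exp_mul,
                  ← Real.exp_add, ← Real.exp_add, ← Real.exp_add, ← Real.exp_add]
                congr 1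
                ring
            _ ≤ _ := Real.exp_le_exp.2 h4
        · calc 1 / Real.exp α * (Real.exp R *
                (min (1 / (Real.exp R * Real.exp (-L))) (Real.exp (-L))) ^ (1 - β)) * Real.exp U
              ≤ 1 / Real.exp α * (Real.exp R * (Real.exp (-L)) ^ (1 - β)) * Real.exp U := by
                have := Real.rpow_le_rpow hmin0 (min_le_right (1 / (Real.exp R * Real.exp (-L)))
                  (Real.exp (-L))) (show 0 ≤ 1 - β by linarith)
                gcongr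
            _ = Real.exp (-α + (R - (1 - β) * L) + U) := by
                rw [one_div, ← Real.exp_neg, ← Real.exp_mul,
                  ← Real.exp_add, ← Real.exp_add, ← Real.exp_add]
                congr 1
                ring
            _ ≤ _ := Real.exp_le_exp.2 h5
      · constructor
        · calc 1 / Real.exp α * (Real.exp R ^ (-(m : ℝ) / 2) *
                min 1 (Real.exp (-L) * Real.exp R ^ (1 / 2 : ℝ))) * Real.exp U ^ (2 : ℝ)
              ≤ 1 / Real.exp α * (Real.exp R ^ (-(m : ℝ) / 2) * 1) * Real.exp U ^ (2 : ℝ) := by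
                gcongr
                exact min_le_left _ _
            _ = Real.exp (-α + (-(m : ℝ) / 2 * R) + 2 * U) := by
                rw [mul_one, one_div, ← Real.exp_neg, ← Real.exp_mul, ← Real.exp_mul,
                  ← Real.exp_add, ← Real.exp_add]
                congr 1
                ring
            _ ≤ _ := Real.exp_le_exp.2 h4
        · calc 1 / Real.exp α * (Real.exp R *
                (min (1 / (Real.exp R * Real.exp (-L))) (Real.exp (-L))) ^ (1 - β)) * Real.exp U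
              ≤ 1 / Real.exp α * (Real.exp R * (1 / (Real.exp R * Real.exp (-L))) ^ (1 - β)) *
                Real.exp U := by
                have := Real.rpow_le_rpow hmin0 (min_le_left (1 / (Real.exp R * Real.exp (-L)))
                  (Real.exp (-L))) (show 0 ≤ 1 - β by linarith)
                gcongr
            _ = Real.exp (-α + (R - (1 - β) * (R - L)) + U) := by
                rw [one_div, one_div, ← Real.exp_add, ← Real.exp_neg, ← Real.exp_neg,
                  ← Real.exp_mul, ← Real.exp_add, ← Real.exp_add, ← Real.exp_add]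
                congr 1
                ring
            _ ≤ _ := Real.exp_le_exp.2 h5

theorem real_hi {m : ℕ} (hm : 2 ≤ m) {β s A u : ℝ} (hβ0 : 0 ≤ β) (hβ : β ≤ 1) (hs0 : 0 ≤ s)
    (hs : 2 * ((m : ℝ) + 1) * s ≤ 1) (hA : 4 ≤ A) (hu : 0 < u) :
    (1 / A * u ^ (2 : ℝ) ≤ 3 ^ (m + 1) * (aa m β s A 1 * u ^ (1 + 2 * s))) ∨
    (A ^ (-(1 - β)) * u ≤ 3 ^ (m + 1) * (aa m β s A 1 * u ^ (1 + 2 * s))) ∨
    ∃ r : ℝ, 3 ≤ r ∧ r ≤ A ∧
      1 / A * r ^ (-(m : ℝ) / 2) * u ^ (2 : ℝ) ≤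
        3 ^ (m + 1) * (aa m β s A 1 * u ^ (1 + 2 * s)) ∧
      1 / A * r ^ β * u ≤ 3 ^ (m + 1) * (aa m β s A 1 * u ^ (1 + 2 * s)) := by
  have hm2 : (2 : ℝ) ≤ m := by exact_mod_cast hm
  obtain ⟨α, rfl⟩ := exp_log' (show 0 < A by linarith)
  obtain ⟨U, rfl⟩ := exp_log' hu
  have h3 : Real.exp (Real.log 3) = 3 := Real.exp_log (by norm_num)
  have ht0 : 0 ≤ Real.log 3 := Real.log_nonneg (by norm_num)
  have hα : 0 ≤ α := by
    have : (1 : ℝ) ≤ Real.exp α := by linarith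
    rwa [← Real.exp_zero, Real.exp_le_exp] at this
  have hTT := hT m β s α 0 U
  rw [neg_zero, Real.exp_zero] at hTT
  rw [hTT]
  have e1 : 1 / Real.exp α * Real.exp U ^ (2 : ℝ) = Real.exp (-α + 2 * U) := by
    rw [one_div, ← Real.exp_neg, ← Real.exp_mul, ← Real.exp_add]
    congr 1
    ring
  have e2 : Real.exp α ^ (-(1 - β)) * Real.exp U = Real.exp (-(1 - β) * α + U) := by
    rw [← Real.exp_mul, ← Real.exp_add]
    congr 1
    ring
  rw [e1, e2]
  rcases lg_hi (M := (m : ℝ)) (β := β) (s := s) (α := α) (U := U)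
    (t := Real.log 3)
    (Z := max (-(1 - β) * (α - 0) - 2 * s * (((m : ℝ) / 2 + β) * α + (1 - β) * 0))
        (-α + (1 + β) * 0 - 2 * s * ((m : ℝ) + 1 + β) * 0)) hm2 hβ0 hβ hs0 hs ht0 hα
    (le_trans (le_of_eq (by ring)) (le_max_left _ _))
    (le_trans (le_of_eq (by ring)) (le_max_right _ _))
    with h | h | ⟨R, hR1, hR2, h4, h5⟩
  · exact Or.inl (Real.exp_le_exp.2 h)
  · exact Or.inr (Or.inl (Real.exp_le_exp.2 h))
  · refine Or.inr (Or.inr ⟨Real.exp R, ?_, Real.exp_le_exp.2 hR2, ?_, ?_⟩)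
    · rw [← h3]
      exact Real.exp_le_exp.2 hR1
    · refine le_trans (le_of_eq ?_) (Real.exp_le_exp.2 h4)
      rw [one_div, ← Real.exp_neg, ← Real.exp_mul, ← Real.exp_mul, ← Real.exp_add,
        ← Real.exp_add]
      congr 1
      ring
    · refine le_trans (le_of_eq ?_) (Real.exp_le_exp.2 h5)
      rw [one_div, ← Real.exp_neg, ← Real.exp_mul, ← Real.exp_add, ← Real.exp_add]
      congr 1
      ring

/-! ### Energies -/

theorem t_rx (m : ℕ) (hm : 2 ≤ m) : S_BS m → S_SPL m → S_SPH m → S_RX m := by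
  intro hBS hSPL hSPH ψ θ hψ hθ β K₀ s hβ0 hβ1 hK hs0 hs
  have hm2 : (2 : ℝ) ≤ m := by exact_mod_cast hm
  obtain ⟨C1, hC1, hBS⟩ := hBS ψ θ hψ hθ β K₀ hβ0 hβ1 hK
  obtain ⟨C2, hC2, hSPL⟩ := hSPL ψ θ hψ hθ β K₀ hβ0 hβ1 hK
  obtain ⟨C3, hC3, hSPH⟩ : ∃ C : ℝ, 0 < C ∧ ((∀ s, s ≤ 1 → θ s = 1) →
      ∀ ν : Measure (E 1), LD β K₀ ν → ∀ A : ℝ, 4 ≤ A →
      ∀ r : ℝ, 3 ≤ r → r ≤ A → ∀ g : E (m + 1) → ℂ, BB g →
      En (hi m ψ θ A) g (cyl m ν) ≤
        ENNReal.ofReal (C / A * r ^ (-(m : ℝ) / 2)) * (∫⁻ x, ‖g x‖ₑ ∂(cyl m ν)) ^ (2 : ℝ) +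
        ENNReal.ofReal (C / A * r ^ β) * ∫⁻ x, ‖g x‖ₑ ^ (2 : ℝ) ∂(cyl m ν)) := by
    by_cases h : ∀ s, s ≤ 1 → θ s = 1
    · obtain ⟨C, hC, h'⟩ := hSPH ψ θ hψ hθ h β K₀ hβ0 hβ1 hK
      exact ⟨C, hC, fun _ => h'⟩
    · exact ⟨1, one_pos, fun h' => absurd h' h⟩
  have hK3 : (0 : ℝ) < 3 ^ (m + 1) := by positivity
  refine ⟨(C1 + 2 * C2 + 2 * C3) * 3 ^ (m + 1), by positivity, ?_⟩
  intro ν hν g hg S hS hSf hg1 hg0
  set u : ℝ := (cyl m ν S).toReal with hudef
  have hu : cyl m ν S = ENNReal.ofReal u := (ENNReal.ofReal_toReal hSf).symm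
  have hu0 : 0 ≤ u := ENNReal.toReal_nonneg
  have hI1 : ∫⁻ x, ‖g x‖ₑ ∂(cyl m ν) ≤ ENNReal.ofReal u := by
    rw [← hu]
    have := lint_le (μ := cyl m ν) hS hg1 hg0 (p := 1) one_pos
    simpa using this
  have hI2 : ∫⁻ x, ‖g x‖ₑ ^ (2 : ℝ) ∂(cyl m ν) ≤ ENNReal.ofReal u := by
    rw [← hu]
    exact lint_le (μ := cyl m ν) hS hg1 hg0 two_pos
  have he : (0 : ℝ) < 1 + 2 * s := by positivity
  rw [hu]
  obtain ⟨hBS1, hBS2⟩ := hBS ν hν
  -- enlarging the constant
  have big : ∀ {c x Y : ℝ}, 0 ≤ c → c ≤ C1 + 2 * C2 + 2 * C3 → 0 ≤ Y → x ≤ 3 ^ (m + 1) * Y →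
      c * x ≤ (C1 + 2 * C2 + 2 * C3) * 3 ^ (m + 1) * Y := by
    intro c x Y hc hcC hY hx
    calc c * x ≤ c * (3 ^ (m + 1) * Y) := mul_le_mul_of_nonneg_left hx hc
      _ ≤ (C1 + 2 * C2 + 2 * C3) * (3 ^ (m + 1) * Y) :=
          mul_le_mul_of_nonneg_right hcC (by positivity)
      _ = _ := by ring
  constructor
  · intro A l hAdm
    obtain ⟨hA, hl0, hl, hAl, _⟩ := id hAdm
    obtain ⟨ha, hb⟩ := hBS1 A l hAdm g hg
    have hc := hSPL ν hν A l hAdm
    have hA0 : 0 < A := by linarith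
    obtain ⟨X, hXe⟩ : ∃ X : ℝ, X = aa m β s A l := ⟨_, rfl⟩
    have hX : 0 ≤ X := by rw [hXe]; exact aa_nonneg m β s A l hA0 hl0
    have ha' := comb1 (by positivity) hu0 ha hI1
    rcases hu0.lt_or_eq with hup | hu00
    · have hY : 0 ≤ X * u ^ (1 + 2 * s) := by positivity
      have hreal := real_pm hm hβ0 hβ1 hs0 hs hA hl0 hl hAl hup
      rw [← hXe] at hreal ⊢
      rcases hreal with h | h | ⟨r, hr3, hrA, h, h'⟩
      · refine target hu0 he.le (by positivity) hX ha' ?_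
        have := big hC1.le (by linarith) hY h
        linarith
      · refine target hu0 he.le (by positivity) hX (comb2 (by positivity) hb hI2) ?_
        have := big hC1.le (by linarith) hY h
        linarith
      · have hr0 : 0 < r := by linarith
        have hmin : 0 ≤ min (1 / (r * l)) l := le_min (by positivity) hl0.le
        have hmin1 : 0 ≤ min 1 (l * r ^ (1 / 2 : ℝ)) := le_min zero_le_one (by positivity)
        refine target hu0 he.le (by positivity) hX
          (comb3 (by positivity) (by positivity) hu0 (hc r hr3 hrA g hg) hI1 hI2) ?_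
        have h7 := add_le_add (mul_le_mul_of_nonneg_left h hC2.le)
          (mul_le_mul_of_nonneg_left h' hC2.le)
        have h8 : 2 * C2 * (3 ^ (m + 1) * (X * u ^ (1 + 2 * s))) ≤ (C1 + 2 * C2 + 2 * C3) *
            (3 ^ (m + 1) * (X * u ^ (1 + 2 * s))) :=
          mul_le_mul_of_nonneg_right (by linarith) (by positivity)
        have e1 : C2 / A * (r ^ (-(m : ℝ) / 2) * min 1 (l * r ^ (1 / 2 : ℝ))) * u ^ (2 : ℝ) =
            C2 * (1 / A * (r ^ (-(m : ℝ) / 2) * min 1 (l * r ^ (1 / 2 : ℝ))) * u ^ (2 : ℝ)) := by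
          ring
        have e2 : C2 / A * (r * (min (1 / (r * l)) l) ^ (1 - β)) * u =
            C2 * (1 / A * (r * (min (1 / (r * l)) l) ^ (1 - β)) * u) := by ring
        rw [e1, e2]
        refine h7.trans ?_
        refine le_trans (le_of_eq ?_) (h8.trans (le_of_eq ?_))
        · ring
        · ring
    · rw [← hu00]
      rw [← hu00, Real.zero_rpow (by norm_num), mul_zero, ENNReal.ofReal_zero] at ha'
      exact ha'.trans zero_le
  · intro hθ1 A hA
    obtain ⟨ha, hb⟩ := hBS2 hθ1 A hA g hg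
    have hc := hSPH hθ1 ν hν A hA
    have hA0 : 0 < A := by linarith
    obtain ⟨X, hXe⟩ : ∃ X : ℝ, X = aa m β s A 1 := ⟨_, rfl⟩
    have hX : 0 ≤ X := by rw [hXe]; exact aa_nonneg m β s A 1 hA0 one_pos
    have ha' := comb1 (by positivity) hu0 ha hI1
    rcases hu0.lt_or_eq with hup | hu00
    · have hY : 0 ≤ X * u ^ (1 + 2 * s) := by positivity
      have hreal := real_hi hm hβ0 hβ1 hs0 hs hA hup
      rw [← hXe] at hreal ⊢
      rcases hreal with h | h | ⟨r, hr3, hrA, h, h'⟩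
      · refine target hu0 he.le (by positivity) hX ha' ?_
        have := big hC1.le (by linarith) hY h
        have e1 : C1 / A * u ^ (2 : ℝ) = C1 * (1 / A * u ^ (2 : ℝ)) := by ring
        rw [e1]
        linarith
      · refine target hu0 he.le (by positivity) hX (comb2 (by positivity) hb hI2) ?_
        have := big hC1.le (by linarith) hY h
        linarith
      · have hr0 : 0 < r := by linarith
        refine target hu0 he.le (by positivity) hX
          (comb3 (by positivity) (by positivity) hu0 (hc r hr3 hrA g hg) hI1 hI2) ?_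
        have h7 := add_le_add (mul_le_mul_of_nonneg_left h hC3.le)
          (mul_le_mul_of_nonneg_left h' hC3.le)
        have h8 : 2 * C3 * (3 ^ (m + 1) * (X * u ^ (1 + 2 * s))) ≤
            (C1 + 2 * C2 + 2 * C3) * (3 ^ (m + 1) * (X * u ^ (1 + 2 * s))) :=
          mul_le_mul_of_nonneg_right (by linarith) (by positivity)
        have e1 : C3 / A * r ^ (-(m : ℝ) / 2) * u ^ (2 : ℝ) =
            C3 * (1 / A * r ^ (-(m : ℝ) / 2) * u ^ (2 : ℝ)) := by
          ring
        have e2 : C3 / A * r ^ β * u = C3 * (1 / A * r ^ β * u) := by ring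
        rw [e1, e2]
        refine h7.trans ?_
        refine le_trans (le_of_eq ?_) (h8.trans (le_of_eq ?_))
        · ring
        · ring
    · rw [← hu00]
      rw [← hu00, Real.zero_rpow (by norm_num), mul_zero, ENNReal.ofReal_zero] at ha'
      exact ha'.trans zero_le

end Pool.Agent.Y356.FE
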